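import Pool.Agent.Y815.B2.Diag

/-!
# Centralizers and conjugacy in `GG`: the job `StB2`
-/

set_option autoImplicit false

namespace Pool.Agent.Y815.B2

open Pool.Agent.Y60

set_option maxRecDepth 100000
set_option synthInstance.maxSize 2000

/-! ### The stabilizer of `e_5` -/

/-- parameters of `KK` -/
abbrev TK := B4 × Fin 5 × Bool

/-- the words of `KK` -/
def Kw (t : TK) : List (Fin 5) :=
  Dw t.1 ++ (List.replicate t.2.1 1 ++ (if t.2.2 then [3] else []))

theorem mem_KK {g : GG} : g ∈ KK ↔ g.1 (bas 5) = bas 5 := by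
  unfold KK
  rw [MulAction.mem_stabilizer_iff]
  constructor
  · intro h
    have := congrArg Subtype.val h
    rwa [smul_val] at this
  · intro h
    apply Subtype.ext
    rw [smul_val]
    exact h

theorem Kw_fix : ∀ t : TK, wf (Kw t) (bas 5) = bas 5 := by
  decide +kernel

theorem Kw_mem (t : TK) : we (Kw t) ∈ KK := by
  rw [mem_KK, we_apply]
  exact Kw_fix t

/-- position of the first nonzero coordinate -/
def pos (x : V6) : Fin 5 :=
  if x.1 ≠ 0 then 0 else if x.2.1 ≠ 0 then 1 else if x.2.2.1 ≠ 0 then 2 else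
  if x.2.2.2.1 ≠ 0 then 3 else 4

/-- the sum of the first five basis vectors -/
def uu : V6 := (1, 1, 1, 1, 1, 0)

/-- the parameters of an element of `KK` -/
def dec (x0 x1 y : V6) : TK :=
  ((decide (y.1 = F3.t), xor (decide (y.1 = F3.t)) (decide (y.2.1 = F3.t)),
    xor (xor (decide (y.1 = F3.t)) (decide (y.2.1 = F3.t))) (decide (y.2.2.1 = F3.t)),
    decide (y.2.2.2.2.1 = F3.t)),
   pos x0, decide (pos x1 ≠ pos x0 + 1))

theorem dec_Kw : ∀ t : TK, dec (wf (Kw t) (bas 0)) (wf (Kw t) (bas 1)) (wf (Kw t) uu) = t := by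
  decide +kernel

theorem Kw_inj {s t : TK} (h : we (Kw s) = we (Kw t)) : s = t := by
  rw [← dec_Kw s, ← dec_Kw t, ← we_apply, ← we_apply, ← we_apply, ← we_apply, ← we_apply,
    ← we_apply, h]

/-- the parametrization of `KK` -/
def mapK (t : TK) : KK := ⟨we (Kw t), Kw_mem t⟩

theorem mapK_bij (h : Nat.card GG = 40320) : Function.Bijective mapK := by
  rw [Nat.bijective_iff_injective_and_card]
  refine ⟨fun s t hst => Kw_inj (congrArg Subtype.val hst), ?_⟩
  rw [card_KK h, Nat.card_eq_fintype_card]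
  decide +kernel

theorem KK_param (h : Nat.card GG = 40320) {g : GG} (hg : g.1 (bas 5) = bas 5) :
    ∃ t : TK, g = we (Kw t) := by
  obtain ⟨t, ht⟩ := (mapK_bij h).2 ⟨g, mem_KK.2 hg⟩
  exact ⟨t, (congrArg Subtype.val ht).symm⟩

/-! ### The centre -/

theorem zz_apply (x : V6) : zz.1 x = -x := by
  rw [zz_eq, we_apply]
  rfl

theorem zz_comm (g : GG) : g * zz = zz * g := by
  apply ext_bas
  intro i
  show g.1 (zz.1 (bas i)) = zz.1 (g.1 (bas i))
  rw [zz_apply, zz_apply, GG_neg]

theorem zz_sq : zz * zz = 1 := by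
  rw [zz_eq, ← we_append, ← we_nil]
  apply we_eq
  decide +kernel

theorem zz_ne : zz ≠ 1 := by
  rw [zz_eq, ← we_nil]
  apply we_ne
  decide +kernel

theorem zz_notMem : zz ∉ KK := by
  rw [mem_KK, zz_apply]
  decide

theorem KK_param' (h : Nat.card GG = 40320) {g : GG}
    (hg : g.1 (bas 5) = bas 5 ∨ g.1 (bas 5) = -bas 5) :
    ∃ t : TK, g = we (Kw t) ∨ g = zz * we (Kw t) := by
  rcases hg with hg | hg
  · obtain ⟨t, ht⟩ := KK_param h hg
    exact ⟨t, Or.inl ht⟩
  · have h1 : (zz * g).1 (bas 5) = bas 5 := by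
      show zz.1 (g.1 (bas 5)) = _
      rw [zz_apply, hg, neg_neg]
    obtain ⟨t, ht⟩ := KK_param h h1
    refine ⟨t, Or.inr ?_⟩
    rw [← ht, ← mul_assoc, zz_sq, one_mul]

/-! ### The involutions -/

theorem vv_sq : vv * vv = 1 := by
  rw [vv_eq, ← we_append, ← we_nil]
  apply we_eq
  decide +kernel

theorem cc_five : cc ^ 5 = 1 := by
  rw [ccpow, ← we_nil]
  apply we_eq
  decide +kernel

theorem cc_ne : cc ≠ 1 := by
  rw [cc_eq, ← we_nil]
  apply we_ne
  decide +kernel

theorem cc_mem : cc ∈ KK := by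
  rw [mem_KK, cc_eq, we_apply]
  decide +kernel

theorem D_fix : ∀ b : B4, wf (Dw b) (bas 5) = bas 5 := by
  decide +kernel

theorem EE_le : EE ≤ KK := by
  intro e he
  obtain ⟨b, rfl⟩ := mem_EE he
  rw [mem_KK, we_apply]
  exact D_fix b

theorem cc_conj_inv : IsConj cc cc⁻¹ := by
  rw [isConj_iff]
  refine ⟨we [3], ?_⟩
  rw [cc_inv, mul_inv_eq_iff_eq_mul, cc_eq, ← we_append, ← we_append]
  apply we_eq
  decide +kernel

theorem fix_vv : (Finset.univ.filter (fun x : V6 => fn 0 x = x)).card = 81 := by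
  decide +kernel

theorem fix_zv : (Finset.univ.filter (fun x : V6 => wf [4, 0] x = x)).card = 9 := by
  decide +kernel

theorem not_conj_vv : ¬ IsConj vv (zz * vv) := by
  rw [isConj_iff]
  rintro ⟨c, hc⟩
  rw [mul_inv_eq_iff_eq_mul] at hc
  have h1 : ∀ x : V6, c.1 (fn 0 x) = wf [4, 0] (c.1 x) := by
    intro x
    have h2 : (c * vv).1 x = (zz * vv * c).1 x := by rw [hc]
    have h3 : zz * vv = we [4, 0] := by rw [zz_eq, vv_eq, ← we_append]; rfl
    have h4 : (c * vv).1 x = c.1 (fn 0 x) := by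
      show c.1 (vv.1 x) = _
      rw [vv_eq, we_apply]
      rfl
    have h5 : (zz * vv * c).1 x = wf [4, 0] (c.1 x) := by
      rw [h3]
      show (we [4, 0]).1 (c.1 x) = _
      rw [we_apply]
    rw [← h4, ← h5, h2]
  have h6 : (Finset.univ.filter (fun x : V6 => fn 0 x = x)).card ≤
      (Finset.univ.filter (fun x : V6 => wf [4, 0] x = x)).card := by
    apply Finset.card_le_card_of_injOn (fun x => c.1 x)
    · intro x hx
      simp only [Finset.coe_filter, Finset.mem_univ, true_and, Set.mem_ofPred_eq] at hx ⊢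
      rw [← h1, hx]
    · intro x _ y _ hxy
      exact c.1.injective hxy
  rw [fix_vv, fix_zv] at h6
  omega

/-! ### The element of order five -/

theorem fix_cc : ∀ x : V6, dot x x = 1 → fn 1 x = x → x = bas 5 ∨ x = -bas 5 := by
  decide +kernel

theorem fix_cc2 : ∀ x : V6, dot x x = 1 → wf [1, 1] x = x → x = bas 5 ∨ x = -bas 5 := by
  decide +kernel

theorem norm_bas (g : GG) (i : Fin 6) : dot (g.1 (bas i)) (g.1 (bas i)) = 1 := by
  rw [GG_dot]
  revert i
  decide

theorem Kw_ne : ∀ t : TK, ∃ i : Fin 6, wf (Kw t ++ [1]) (bas i) ≠ wf ([1, 1] ++ Kw t) (bas i) := by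
  decide +kernel

theorem Kw_comm : ∀ t : TK, t ∈ ([((false, false, false, false), 0, false),
    ((false, false, false, false), 1, false), ((false, false, false, false), 2, false),
    ((false, false, false, false), 3, false), ((false, false, false, false), 4, false)] : List TK) ∨
    ∃ i : Fin 6, wf ([1] ++ Kw t) (bas i) ≠ wf (Kw t ++ [1]) (bas i) := by
  decide +kernel

theorem not_conj_cc (h : Nat.card GG = 40320) : ¬ IsConj cc (cc ^ 2) := by
  rw [isConj_iff]
  rintro ⟨c, hc⟩
  rw [mul_inv_eq_iff_eq_mul] at hc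
  have h2 : cc ^ 2 = we [1, 1] := ccpow 2
  have h1 : wf [1, 1] (c.1 (bas 5)) = c.1 (bas 5) := by
    have h3 : (cc ^ 2 * c).1 (bas 5) = (c * cc).1 (bas 5) := by rw [hc]
    have h4 : (cc ^ 2 * c).1 (bas 5) = wf [1, 1] (c.1 (bas 5)) := by
      rw [h2]
      show (we [1, 1]).1 (c.1 (bas 5)) = _
      rw [we_apply]
    have h5 : (c * cc).1 (bas 5) = c.1 (bas 5) := by
      show c.1 (cc.1 (bas 5)) = _
      rw [mem_KK.1 cc_mem]
    rw [← h4, h3, h5]
  obtain ⟨t, ht⟩ := KK_param' h (fix_cc2 _ (norm_bas c 5) h1)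
  have key : we (Kw t) * cc = cc ^ 2 * we (Kw t) := by
    rcases ht with ht | ht
    · rw [← ht]; exact hc
    · rw [ht] at hc
      have h6 : zz * (we (Kw t) * cc) = zz * (cc ^ 2 * we (Kw t)) := by
        rw [← mul_assoc, hc, ← mul_assoc, ← mul_assoc, zz_comm]
      exact mul_left_cancel h6
  rw [h2, cc_eq, ← we_append, ← we_append] at key
  exact we_ne (Kw_ne t) key

/-- the words of the centralizer of `cc` -/
def Cw (t : Bool × Fin 5) : List (Fin 5) := (if t.1 then [4] else []) ++ List.replicate t.2 1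

theorem Cw_key : ∀ s t : Bool × Fin 5, s = t ∨ ∃ i : Fin 6, wf (Cw s) (bas i) ≠ wf (Cw t) (bas i) := by
  decide +kernel

theorem Cw_comm (t : Bool × Fin 5) : cc * we (Cw t) = we (Cw t) * cc := by
  rw [cc_eq, ← we_append, ← we_append]
  apply we_eq
  revert t
  decide +kernel

/-- the map to the centralizer of `cc` -/
noncomputable def mapC (t : Bool × Fin 5) : Subgroup.centralizer ({cc} : Set GG) :=
  ⟨we (Cw t), Subgroup.mem_centralizer_iff.2 fun a ha => by
    rw [Set.mem_singleton_iff.1 ha]; exact Cw_comm t⟩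

theorem mapC_bij (h : Nat.card GG = 40320) : Function.Bijective mapC := by
  constructor
  · intro s t hst
    rcases Cw_key s t with h1 | h1
    · exact h1
    · exact absurd (congrArg Subtype.val hst) (we_ne h1)
  · rintro ⟨g, hg⟩
    have hc : cc * g = g * cc := Subgroup.mem_centralizer_iff.1 hg cc rfl
    have h1 : fn 1 (g.1 (bas 5)) = g.1 (bas 5) := by
      have h3 : (cc * g).1 (bas 5) = (g * cc).1 (bas 5) := by rw [hc]
      have h4 : (cc * g).1 (bas 5) = fn 1 (g.1 (bas 5)) := by
        show cc.1 (g.1 (bas 5)) = _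
        rw [cc_eq, we_apply]
        rfl
      have h5 : (g * cc).1 (bas 5) = g.1 (bas 5) := by
        show g.1 (cc.1 (bas 5)) = _
        rw [mem_KK.1 cc_mem]
      rw [← h4, h3, h5]
    obtain ⟨t, ht⟩ := KK_param' h (fix_cc _ (norm_bas g 5) h1)
    have key : cc * we (Kw t) = we (Kw t) * cc := by
      rcases ht with ht | ht
      · rw [← ht]; exact hc
      · rw [ht] at hc
        have h6 : zz * (cc * we (Kw t)) = zz * (we (Kw t) * cc) := by
          rw [← mul_assoc, ← zz_comm cc, mul_assoc, hc, mul_assoc]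
        exact mul_left_cancel h6
    rw [cc_eq, ← we_append, ← we_append] at key
    have ht' : ∃ l : Fin 5, t = ((false, false, false, false), l, false) := by
      rcases Kw_comm t with h7 | h7
      · simp only [List.mem_cons, List.not_mem_nil, or_false] at h7
        rcases h7 with h7 | h7 | h7 | h7 | h7
        · exact ⟨0, h7⟩
        · exact ⟨1, h7⟩
        · exact ⟨2, h7⟩
        · exact ⟨3, h7⟩
        · exact ⟨4, h7⟩
      · exact absurd key (we_ne h7)
    obtain ⟨l, rfl⟩ := ht'
    have hK : Kw ((false, false, false, false), l, false) = List.replicate l 1 := by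
      show [] ++ (List.replicate (l : ℕ) 1 ++ []) = _
      rw [List.append_nil, List.nil_append]
    rw [hK] at ht
    rcases ht with ht | ht
    · refine ⟨(false, l), Subtype.ext ?_⟩
      show we (Cw (false, l)) = g
      rw [ht]
      rfl
    · refine ⟨(true, l), Subtype.ext ?_⟩
      show we (Cw (true, l)) = g
      rw [ht, zz_eq, ← we_append]
      rfl

theorem card_Ccc (h : Nat.card GG = 40320) :
    Nat.card (Subgroup.centralizer ({cc} : Set GG)) = 10 := by
  rw [← Nat.card_congr (Equiv.ofBijective mapC (mapC_bij h)), Nat.card_eq_fintype_card]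
  decide

/-! ### The centralizer of the involution -/

/-- coset representatives -/
def sw : Fin 4 → List (Fin 5)
  | 0 => []
  | 1 => [4]
  | 2 => [1, 3]
  | 3 => [4, 1, 3]

theorem anti_vv : ∀ x : V6, dot x x = 1 → fn 0 x = -x → ∃ s : Fin 4, x = wf (sw s) (bas 0) := by
  decide +kernel

theorem sw_key : ∀ s t : Fin 4, s = t ∨ wf (sw s) (bas 0) ≠ wf (sw t) (bas 0) := by
  decide +kernel

theorem sw_comm (s : Fin 4) : vv * we (sw s) = we (sw s) * vv := by
  rw [vv_eq, ← we_append, ← we_append]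
  apply we_eq
  revert s
  decide +kernel

/-- the parameters of the elements of `KK` whose conjugate commutes with `vv` -/
def Pk (t : TK) : Bool :=
  decide (∀ i : Fin 6, wf ([0, 2] ++ Kw t ++ [2]) (bas i) = wf ([2] ++ Kw t ++ [2, 0]) (bas i))

theorem card_Pk : Fintype.card {t : TK // Pk t = true} = 32 := by
  rw [Fintype.card_subtype]
  decide +kernel

theorem two_two : we [2] * we [2] = 1 := by
  rw [← we_append, ← we_nil]
  apply we_eq
  decide +kernel

/-- the map to the centralizer -/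
noncomputable def elV (p : Fin 4 × {t : TK // Pk t = true}) : GG :=
  we (sw p.1) * (we [2] * we (Kw p.2.1) * we [2])

theorem Pk_comm {t : TK} (ht : Pk t = true) : vv * (we [2] * we (Kw t) * we [2]) =
    we [2] * we (Kw t) * we [2] * vv := by
  have h := we_eq (of_decide_eq_true ht)
  have e1 : [0, 2] ++ Kw t ++ [2] = [0] ++ ([2] ++ Kw t ++ [2]) := by simp
  have e2 : [2] ++ Kw t ++ [2, 0] = [2] ++ Kw t ++ [2] ++ [0] := by simp
  rw [e1, e2, we_append [0], we_append _ [0], we_append _ [2], we_append [2], ← vv_eq] at h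
  exact h

theorem comm_Pk {t : TK} (h : vv * (we [2] * we (Kw t) * we [2]) =
    we [2] * we (Kw t) * we [2] * vv) : Pk t = true := by
  apply decide_eq_true
  intro i
  rw [← we_apply, ← we_apply]
  have e1 : [0, 2] ++ Kw t ++ [2] = [0] ++ ([2] ++ Kw t ++ [2]) := by simp
  have e2 : [2] ++ Kw t ++ [2, 0] = [2] ++ Kw t ++ [2] ++ [0] := by simp
  rw [e1, e2, we_append [0], we_append _ [0], we_append _ [2], we_append [2], ← vv_eq, h]

theorem elV_comm (p : Fin 4 × {t : TK // Pk t = true}) : vv * elV p = elV p * vv := by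
  unfold elV
  rw [← mul_assoc, sw_comm, mul_assoc, Pk_comm p.2.2, ← mul_assoc]

theorem two_bas0 : wf [2] (bas 0) = bas 5 := by decide
theorem two_bas5 : wf [2] (bas 5) = bas 0 := by decide

theorem fix_bas0 (t : TK) : (we [2] * we (Kw t) * we [2]).1 (bas 0) = bas 0 := by
  show (we [2]).1 ((we (Kw t)).1 ((we [2]).1 (bas 0))) = _
  rw [we_apply [2] (bas 0), two_bas0, we_apply (Kw t), Kw_fix, we_apply [2] (bas 5), two_bas5]

/-- the map to the centralizer of `vv` -/
noncomputable def mapV (p : Fin 4 × {t : TK // Pk t = true}) :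
    Subgroup.centralizer ({vv} : Set GG) :=
  ⟨elV p, Subgroup.mem_centralizer_iff.2 fun a ha => by
    rw [Set.mem_singleton_iff.1 ha]; exact elV_comm p⟩

theorem mapV_bij (h : Nat.card GG = 40320) : Function.Bijective mapV := by
  constructor
  · rintro ⟨s, t, ht⟩ ⟨s', t', ht'⟩ hst
    have h1 : we (sw s) * (we [2] * we (Kw t) * we [2]) =
        we (sw s') * (we [2] * we (Kw t') * we [2]) := congrArg Subtype.val hst
    have h2 : wf (sw s) (bas 0) = wf (sw s') (bas 0) := by
      have h3 : (we (sw s) * (we [2] * we (Kw t) * we [2])).1 (bas 0) =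
        (we (sw s') * (we [2] * we (Kw t') * we [2])).1 (bas 0) := by rw [h1]
      have h4 : ∀ (s : Fin 4) (t : TK), (we (sw s) * (we [2] * we (Kw t) * we [2])).1 (bas 0) =
          wf (sw s) (bas 0) := by
        intro s t
        show (we (sw s)).1 ((we [2] * we (Kw t) * we [2]).1 (bas 0)) = _
        rw [fix_bas0, we_apply]
      rw [h4, h4] at h3
      exact h3
    have hs : s = s' := by
      rcases sw_key s s' with h5 | h5
      · exact h5
      · exact absurd h2 h5
    subst hs
    have h6 := mul_right_cancel (mul_left_cancel h1)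
    have h7 := Kw_inj (mul_left_cancel h6)
    subst h7
    rfl
  · rintro ⟨g, hg⟩
    have hc : vv * g = g * vv := Subgroup.mem_centralizer_iff.1 hg vv rfl
    have h1 : fn 0 (g.1 (bas 0)) = -g.1 (bas 0) := by
      have h3 : (vv * g).1 (bas 0) = (g * vv).1 (bas 0) := by rw [hc]
      have h4 : (vv * g).1 (bas 0) = fn 0 (g.1 (bas 0)) := by
        show vv.1 (g.1 (bas 0)) = _
        rw [vv_eq, we_apply]
        rfl
      have h5 : (g * vv).1 (bas 0) = -g.1 (bas 0) := by
        show g.1 (vv.1 (bas 0)) = _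
        have h6 : vv.1 (bas 0) = -bas 0 := by
          rw [vv_eq, we_apply]
          rfl
        rw [h6, GG_neg]
      rw [← h4, h3, h5]
    obtain ⟨s, hs⟩ := anti_vv _ (norm_bas g 0) h1
    have h7 : ((we (sw s))⁻¹ * g).1 (bas 0) = bas 0 := by
      show ((we (sw s))⁻¹).1 (g.1 (bas 0)) = _
      rw [hs, ← we_apply]
      show ((we (sw s))⁻¹ * we (sw s)).1 (bas 0) = _
      rw [inv_mul_cancel]
      rfl
    have h8 : (we [2] * ((we (sw s))⁻¹ * g) * we [2]).1 (bas 5) = bas 5 := by
      show (we [2]).1 (((we (sw s))⁻¹ * g).1 ((we [2]).1 (bas 5))) = _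
      rw [we_apply [2] (bas 5), two_bas5, h7, we_apply, two_bas0]
    obtain ⟨t, ht⟩ := KK_param h h8
    have h9 : we [2] * we (Kw t) * we [2] = (we (sw s))⁻¹ * g := by
      rw [← ht]
      calc we [2] * (we [2] * ((we (sw s))⁻¹ * g) * we [2]) * we [2]
          = (we [2] * we [2]) * ((we (sw s))⁻¹ * g) * (we [2] * we [2]) := by group
        _ = _ := by rw [two_two, one_mul, mul_one]
    have h10 : vv * ((we (sw s))⁻¹ * g) = (we (sw s))⁻¹ * g * vv := by
      have h11 : vv * (we (sw s))⁻¹ = (we (sw s))⁻¹ * vv := by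
        rw [mul_inv_eq_iff_eq_mul, mul_assoc, sw_comm, inv_mul_cancel_left]
      rw [← mul_assoc, h11, mul_assoc, hc, mul_assoc]
    rw [← h9] at h10
    refine ⟨(s, ⟨t, comm_Pk h10⟩), Subtype.ext ?_⟩
    show we (sw s) * (we [2] * we (Kw t) * we [2]) = g
    rw [h9, mul_inv_cancel_left]

theorem card_Cvv (h : Nat.card GG = 40320) :
    Nat.card (Subgroup.centralizer ({vv} : Set GG)) = 128 := by
  rw [← Nat.card_congr (Equiv.ofBijective mapV (mapV_bij h)), Nat.card_prod,
    Nat.card_eq_fintype_card, Nat.card_eq_fintype_card, card_Pk, Fintype.card_fin]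

/-- JOB B2 -/
theorem job : StB2 := by
  intro h
  exact ⟨pretrans, card_KK h, zz_comm, zz_sq, zz_ne, zz_notMem, vv_sq, cc_five, cc_ne, cc_mem,
    EE_le, card_EE, cc_EE, conj_EE, sum_EE, cc_conj_inv, not_conj_vv, not_conj_cc h, card_Cvv h,
    card_Ccc h⟩

end Pool.Agent.Y815.B2
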