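import Pool.Agent.Y815.B2.Words

/-!
# The diagonal subgroup `EE` and the stabilizer `KK`
-/

set_option autoImplicit false

namespace Pool.Agent.Y815.B2

open Pool.Agent.Y60

/-- parameters of the diagonal subgroup -/
abbrev B4 := Bool × Bool × Bool × Bool

/-- the words of the diagonal subgroup -/
def Dw (b : B4) : List (Fin 5) :=
  (if b.1 then [0] else []) ++ ((if b.2.1 then [1, 0, 1, 1, 1, 1] else []) ++
  ((if b.2.2.1 then [1, 1, 0, 1, 1, 1] else []) ++ (if b.2.2.2 then [1, 1, 1, 0, 1, 1] else [])))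

/-- addition of parameters -/
def xorB (b c : B4) : B4 :=
  (xor b.1 c.1, xor b.2.1 c.2.1, xor b.2.2.1 c.2.2.1, xor b.2.2.2 c.2.2.2)

set_option maxRecDepth 100000

theorem D_mul (b c : B4) : we (Dw b) * we (Dw c) = we (Dw (xorB b c)) := by
  rw [← we_append]
  apply we_eq
  revert b c
  decide +kernel

theorem D_key : ∀ b c : B4, b = c ∨ ∃ i : Fin 6, wf (Dw b) (bas i) ≠ wf (Dw c) (bas i) := by
  decide +kernel

theorem D_inj {b c : B4} (h : we (Dw b) = we (Dw c)) : b = c := by
  rcases D_key b c with h1 | h1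
  · exact h1
  · exact absurd h (we_ne h1)

theorem we_single (k : Fin 5) : we [k] = el k := (we_cons k []).trans (mul_one _)

theorem cc_eq : cc = we [1] := (we_single 1).symm
theorem vv_eq : vv = we [0] := (we_single 0).symm
theorem zz_eq : zz = we [4] := (we_single 4).symm

theorem ccpow (l : ℕ) : cc ^ l = we (List.replicate l 1) := by
  rw [cc_eq]
  induction l with
  | zero => rfl
  | succ l ih => rw [pow_succ', ih, ← we_append]; rfl

theorem cc_inv : cc⁻¹ = we [1, 1, 1, 1] := by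
  rw [inv_eq_iff_mul_eq_one, cc_eq, ← we_append, ← we_nil]
  apply we_eq
  decide +kernel

theorem cc2_inv : (cc ^ 2)⁻¹ = we [1, 1, 1] := by
  rw [inv_eq_iff_mul_eq_one, ccpow, ← we_append, ← we_nil]
  apply we_eq
  decide +kernel

theorem cc3_inv : (cc ^ 3)⁻¹ = we [1, 1] := by
  rw [inv_eq_iff_mul_eq_one, ccpow, ← we_append, ← we_nil]
  apply we_eq
  decide +kernel

theorem gen0 : vv = we (Dw (true, false, false, false)) := vv_eq

theorem gen1 : cc * vv * cc⁻¹ = we (Dw (false, true, false, false)) := by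
  rw [cc_inv, cc_eq, vv_eq, ← we_append, ← we_append]
  rfl

theorem gen2 : cc ^ 2 * vv * (cc ^ 2)⁻¹ = we (Dw (false, false, true, false)) := by
  rw [cc2_inv, ccpow, vv_eq, ← we_append, ← we_append]
  rfl

theorem gen3 : cc ^ 3 * vv * (cc ^ 3)⁻¹ = we (Dw (false, false, false, true)) := by
  rw [cc3_inv, ccpow, vv_eq, ← we_append, ← we_append]
  rfl

theorem D_zero : we (Dw (false, false, false, false)) = 1 := rfl

theorem xorB_self (b : B4) : xorB b b = (false, false, false, false) := by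
  revert b
  decide

theorem D_inv (b : B4) : (we (Dw b))⁻¹ = we (Dw b) := by
  rw [inv_eq_iff_mul_eq_one, D_mul, xorB_self, D_zero]

theorem gen0_mem : we (Dw (true, false, false, false)) ∈ EE := by
  rw [← gen0]
  exact Subgroup.subset_closure (Or.inl rfl)

theorem gen1_mem : we (Dw (false, true, false, false)) ∈ EE := by
  rw [← gen1]
  exact Subgroup.subset_closure (Or.inr (Or.inl rfl))

theorem gen2_mem : we (Dw (false, false, true, false)) ∈ EE := by
  rw [← gen2]
  exact Subgroup.subset_closure (Or.inr (Or.inr (Or.inl rfl)))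

theorem gen3_mem : we (Dw (false, false, false, true)) ∈ EE := by
  rw [← gen3]
  exact Subgroup.subset_closure (Or.inr (Or.inr (Or.inr rfl)))

theorem D_mem (b : B4) : we (Dw b) ∈ EE := by
  obtain ⟨b0, b1, b2, b3⟩ := b
  have h : we (Dw (b0, b1, b2, b3)) = we (Dw (b0, false, false, false)) *
      (we (Dw (false, b1, false, false)) * (we (Dw (false, false, b2, false)) *
      we (Dw (false, false, false, b3)))) := by
    rw [D_mul, D_mul, D_mul]
    cases b0 <;> cases b1 <;> cases b2 <;> cases b3 <;> rfl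
  rw [h]
  refine mul_mem ?_ (mul_mem ?_ (mul_mem ?_ ?_))
  · cases b0
    · rw [D_zero]; exact one_mem _
    · exact gen0_mem
  · cases b1
    · rw [D_zero]; exact one_mem _
    · exact gen1_mem
  · cases b2
    · rw [D_zero]; exact one_mem _
    · exact gen2_mem
  · cases b3
    · rw [D_zero]; exact one_mem _
    · exact gen3_mem

theorem mem_EE {e : GG} (he : e ∈ EE) : ∃ b : B4, e = we (Dw b) := by
  induction he using Subgroup.closure_induction with
  | mem x hx =>
    rcases hx with rfl | rfl | rfl | rfl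
    · exact ⟨_, gen0⟩
    · exact ⟨_, gen1⟩
    · exact ⟨_, gen2⟩
    · exact ⟨_, gen3⟩
  | one => exact ⟨(false, false, false, false), rfl⟩
  | mul a b _ _ ha hb =>
    obtain ⟨x, rfl⟩ := ha
    obtain ⟨y, rfl⟩ := hb
    exact ⟨xorB x y, D_mul x y⟩
  | inv a _ ha =>
    obtain ⟨x, rfl⟩ := ha
    exact ⟨x, D_inv x⟩

/-- the parametrization of `EE` -/
noncomputable def eqE : B4 ≃ EE :=
  Equiv.ofBijective (fun b => ⟨we (Dw b), D_mem b⟩) ⟨fun b c h => D_inj (congrArg Subtype.val h),
    fun e => by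
      obtain ⟨b, hb⟩ := mem_EE e.2
      exact ⟨b, Subtype.ext hb.symm⟩⟩

theorem eqE_apply (b : B4) : ((eqE b : EE) : GG) = we (Dw b) := rfl

theorem card_EE : Nat.card EE = 16 := by
  rw [← Nat.card_congr eqE, Nat.card_eq_fintype_card]
  decide

theorem cc_EE (e : GG) (he : e ∈ EE) : cc * e * cc⁻¹ ∈ EE := by
  obtain ⟨b, rfl⟩ := mem_EE he
  have h : ∃ c : B4, ∀ i : Fin 6, wf ([1] ++ Dw b ++ [1, 1, 1, 1]) (bas i) = wf (Dw c) (bas i) := by
    clear he
    revert b
    decide +kernel
  obtain ⟨c, hc⟩ := h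
  rw [cc_inv, cc_eq, ← we_append, ← we_append, we_eq hc]
  exact D_mem c

/-- the conjugating parameters -/
theorem conj_key : ∀ (b : B4) (l : Fin 4), ∃ c : B4, ∀ i : Fin 6,
    wf (Dw c ++ (Dw b ++ List.replicate (l + 1) 1)) (bas i) =
      wf (List.replicate (l + 1) 1 ++ Dw c) (bas i) := by
  decide +kernel

theorem conj_EE (e : GG) (he : e ∈ EE) (l : ℕ) (hl : l ∈ [1, 2, 3, 4]) :
    IsConj (e * cc ^ l) (cc ^ l) := by
  obtain ⟨b, rfl⟩ := mem_EE he
  have hl' : 1 ≤ l ∧ l ≤ 4 := by
    simp only [List.mem_cons, List.not_mem_nil, or_false] at hl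
    omega
  obtain ⟨c, hc⟩ := conj_key b ⟨l - 1, by omega⟩
  have e1 : ((⟨l - 1, by omega⟩ : Fin 4) : ℕ) + 1 = l := by
    show l - 1 + 1 = l
    omega
  rw [e1] at hc
  have h := we_eq hc
  rw [we_append, we_append, we_append, ← ccpow] at h
  rw [isConj_iff]
  refine ⟨we (Dw c), ?_⟩
  rw [h, mul_inv_cancel_right]

/-! ### The class function sum -/

/-- the representative of the class -/
def tgt (b : B4) : Fin 3 :=
  if b = (false, false, false, false) then 0 else
  if b = (false, true, false, true) ∨ b = (true, false, false, true) ∨ b = (true, false, true, false)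
    ∨ b = (true, false, true, true) ∨ b = (true, true, false, true) then 2 else 1

/-- words of the representatives -/
def tw : Fin 3 → List (Fin 5)
  | 0 => []
  | 1 => [0]
  | 2 => [4, 0]

/-- the conjugating words -/
def wits : List (List (Fin 5)) :=
  [[], [1, 1], [1, 1, 1], [1, 1, 2, 3], [1, 1, 3], [1, 2, 1], [1, 1, 2], [1, 1, 2, 1, 1],
   [2, 1, 1], [2], [2, 1], [1, 1, 2, 1], [1, 2], [2, 1, 2], [1]]

theorem tgt_key : ∀ b : B4, ∃ w ∈ wits, ∀ i : Fin 6,
    wf (w ++ Dw b) (bas i) = wf (tw (tgt b) ++ w) (bas i) := by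
  decide +kernel

theorem f_eq (f : GG → ℂ) (hf : ∀ g y, f (y * g * y⁻¹) = f g) (b : B4) :
    f (we (Dw b)) = f (we (tw (tgt b))) := by
  obtain ⟨w, _, hw⟩ := tgt_key b
  have h := we_eq hw
  rw [we_append, we_append] at h
  rw [← hf (we (Dw b)) (we w), h, mul_inv_cancel_right]

theorem sum_EE (f : GG → ℂ) (hf : ∀ g y, f (y * g * y⁻¹) = f g) :
    ∑ᶠ e : EE, f e = f 1 + 10 * f vv + 5 * f (zz * vv) := by
  have h1 : ∑ᶠ e : EE, f e = ∑ b : B4, f (we (Dw b)) := by
    rw [← finsum_eq_sum_of_fintype]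
    exact (finsum_comp_equiv (f := fun e : EE => f e) eqE).symm
  have h2 : zz * vv = we [4, 0] := by rw [zz_eq, vv_eq, ← we_append]; rfl
  rw [h1, Finset.sum_congr rfl (fun b _ => f_eq f hf b), h2, vv_eq, ← we_nil]
  have h3 : ∀ φ : Fin 3 → ℂ, ∑ b : B4, φ (tgt b) = φ 0 + 10 * φ 1 + 5 * φ 2 := by
    intro φ
    simp only [Fintype.sum_prod_type, Fintype.sum_bool]
    simp [tgt]
    ring
  exact h3 (fun j => f (we (tw j)))

end Pool.Agent.Y815.B2
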