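import Pool.Agent.Y60.Stm

/-!
# Words in the monomial generators of `GG`, transitivity on the norm-one vectors
-/

set_option autoImplicit false

namespace Pool.Agent.Y815.B2

open Pool.Agent.Y60

/-- the monomial generators as functions (and `-1`) -/
def fn : Fin 5 → V6 → V6
  | 0 => fun x => (-x.1, -x.2.1, x.2.2.1, x.2.2.2.1, x.2.2.2.2.1, x.2.2.2.2.2)
  | 1 => fun x => (x.2.2.2.2.1, x.1, x.2.1, x.2.2.1, x.2.2.2.1, x.2.2.2.2.2)
  | 2 => fun x => (x.2.2.2.2.2, x.2.2.2.2.1, x.2.2.1, x.2.2.2.1, x.2.1, x.1)
  | 3 => fun x => (x.1, x.2.2.2.2.1, x.2.2.2.1, x.2.2.1, x.2.1, x.2.2.2.2.2)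
  | 4 => fun x => (-x.1, -x.2.1, -x.2.2.1, -x.2.2.2.1, -x.2.2.2.2.1, -x.2.2.2.2.2)

/-- the corresponding elements of `GG` -/
def el : Fin 5 → GG
  | 0 => ge 0
  | 1 => ge 1
  | 2 => ge 2
  | 3 => ge 3
  | 4 => ge 4

set_option maxRecDepth 10000 in
theorem el_apply (k : Fin 5) (x : V6) : (el k).1 x = fn k x := by
  obtain ⟨x0, x1, x2, x3, x4, x5⟩ := x
  fin_cases k
  · show app (mat 0) _ = _
    cases x0 <;> cases x1 <;> cases x2 <;> cases x3 <;> cases x4 <;> cases x5 <;> rfl
  · show app (mat 1) _ = _
    cases x0 <;> cases x1 <;> cases x2 <;> cases x3 <;> cases x4 <;> cases x5 <;> rfl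
  · show app (mat 2) _ = _
    cases x0 <;> cases x1 <;> cases x2 <;> cases x3 <;> cases x4 <;> cases x5 <;> rfl
  · show app (mat 3) _ = _
    cases x0 <;> cases x1 <;> cases x2 <;> cases x3 <;> cases x4 <;> cases x5 <;> rfl
  · show app (mat 4) _ = _
    cases x0 <;> cases x1 <;> cases x2 <;> cases x3 <;> cases x4 <;> cases x5 <;> rfl

/-- the function of a word -/
def wf (w : List (Fin 5)) (x : V6) : V6 := w.foldr fn x

/-- the element of a word -/
def we (w : List (Fin 5)) : GG := (w.map el).prod

theorem we_apply (w : List (Fin 5)) (x : V6) : (we w).1 x = wf w x := by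
  induction w with
  | nil => rfl
  | cons k w ih =>
    have h : we (k :: w) = el k * we w := by simp [we]
    rw [h]
    show (el k).1 ((we w).1 x) = _
    rw [ih, el_apply]
    rfl

/-- an element of `GG` as an additive map -/
def hom (g : GG) : V6 →+ V6 where
  toFun := g.1
  map_zero' := GG_zero g
  map_add' := GG_add g

theorem ext_bas {g h : GG} (H : ∀ i : Fin 6, g.1 (bas i) = h.1 (bas i)) : g = h := by
  apply Subtype.ext
  apply Equiv.ext
  intro x
  exact hom_ext' (hom g) (hom h) H x

theorem we_eq {w w' : List (Fin 5)} (H : ∀ i : Fin 6, wf w (bas i) = wf w' (bas i)) :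
    we w = we w' := by
  apply ext_bas
  intro i
  rw [we_apply, we_apply]
  exact H i

theorem we_ne {w w' : List (Fin 5)} (H : ∃ i : Fin 6, wf w (bas i) ≠ wf w' (bas i)) :
    we w ≠ we w' := by
  obtain ⟨i, hi⟩ := H
  intro h
  apply hi
  rw [← we_apply, ← we_apply, h]

theorem we_append (w w' : List (Fin 5)) : we (w ++ w') = we w * we w' := by
  simp [we]

theorem we_nil : we [] = 1 := rfl

theorem we_cons (k : Fin 5) (w : List (Fin 5)) : we (k :: w) = el k * we w := by simp [we]

/-! ### Transitivity -/

/-- table: a generator which moves a norm-one vector nearer to `e_5` -/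
def TT : ℕ := 3702094527263150973844991152439481758977739832623162822039582758023878032949489161586550909056601572671939701653067358674693282209642962178043839142663897875827423292422509738062405644205770285748216525419717783018408995056287082425196723601766797100216038191850515894942806844191450219067284003264463257939748288495206605059393250463451084343956104477118436720926144184459059664361735411158830326891126968041427271147581248012668852176643547705358826296499681661678038597666963498902238381677546112136677043643758154913528477180689756220937781219699188590647465525690749879490021039697202283382899478273083704456490783323166539351628733630701316055060655824289276979200433416208274850709819680612747041651385327844565368262500571005998772210954080193400786740619449378946088616125960951205309024900142899332213533920079979267248860947633794291700534051559709188554784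

/-- the generator for `x` -/
def stepG (x : V6) : Fin 9 := Fin.ofNat 9 ((TT >>> (4 * code x)) % 16)

/-- one step -/
def stepf (x : V6) : V6 := app (mat (stepG x)) x

set_option maxRecDepth 100000 in
theorem reach : ∀ x : V6, dot x x = 1 →
    stepf (stepf (stepf (stepf (stepf x)))) = bas 5 := by
  decide +kernel

theorem exists_step (x : V6) (n : ℕ) : ∃ g : GG, g.1 x = stepf^[n] x := by
  induction n with
  | zero => exact ⟨1, rfl⟩
  | succ n ih =>
    obtain ⟨g, hg⟩ := ih
    refine ⟨ge (stepG (stepf^[n] x)) * g, ?_⟩
    show (ge (stepG (stepf^[n] x))).1 (g.1 x) = _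
    rw [hg, Function.iterate_succ_apply']
    rfl

theorem exists_to_b5 (x : XX) : ∃ g : GG, g • x = b5 := by
  obtain ⟨g, hg⟩ := exists_step x.1 5
  refine ⟨g, ?_⟩
  apply Subtype.ext
  rw [smul_val, hg]
  exact reach x.1 x.2

theorem pretrans : MulAction.IsPretransitive GG XX := by
  refine ⟨fun x y => ?_⟩
  obtain ⟨g, hg⟩ := exists_to_b5 x
  obtain ⟨h, hh⟩ := exists_to_b5 y
  refine ⟨h⁻¹ * g, ?_⟩
  rw [mul_smul, hg, ← hh, inv_smul_smul]

set_option maxRecDepth 100000 in
theorem card_XX : Nat.card XX = 252 := by
  rw [Nat.card_eq_fintype_card, Fintype.card_subtype]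
  decide +kernel

theorem card_KK (h : Nat.card GG = 40320) : Nat.card KK = 160 := by
  have := pretrans
  have h1 := Subgroup.card_mul_index KK
  have h2 : KK.index = Nat.card XX := MulAction.index_stabilizer_of_transitive GG b5
  have h3 : KK.index = 252 := h2.trans card_XX
  have h4 : Nat.card KK * 252 = 40320 := by
    calc Nat.card KK * 252 = Nat.card KK * KK.index := by rw [h3]
      _ = Nat.card GG := h1
      _ = 40320 := h
  generalize Nat.card KK = c at h4 ⊢
  omega

end Pool.Agent.Y815.B2
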